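import Pool.Graph.R_pool_sql_team_seeded_b0a926ef.Results.MP_c4c42c_co.CycleTriangle

/-!
# Subgraphs of the fan and the spectral radius: the extremal graph for every number of edges
-/

set_option autoImplicit false

namespace Pool.Agent.KS6_65.CTR

open Finset Pool.Agent.Helper951.Defs Pool.Agent.Helper951.Spec Pool.Agent.Helper951.FanA
open Pool.Agent.Helper951.FrD
open Pool.Agent.Y804.SF Pool.Agent.Results.MP_d10d5e_co.CycleDefectStability
open Pool.Agent.Results.MP_c4c42c_co.CycleTriangle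

/-- No set of at most `k` vertices meets every edge of `H`. -/
def NoCover {W : Type} (H : SimpleGraph W) (k : ℕ) : Prop :=
  ∀ C : Finset W, C.card ≤ k → ∃ a b, H.Adj a b ∧ a ∉ C ∧ b ∉ C

theorem noCover_of_cycle {W : Type} {H : SimpleGraph W} {k : ℕ} (v : Fin (2 * k + 1) → W)
    (hinj : Function.Injective v) (hadj : ∀ i, H.Adj (v i) (v (finRotate (2 * k + 1) i))) :
    NoCover H k := by
  classical
  intro C hC
  by_contra hcon
  push Not at hcon
  have hcov : ∀ i, v i ∈ C ∨ v (finRotate (2 * k + 1) i) ∈ C := by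
    intro i
    by_contra h
    push Not at h
    exact h.2 (hcon _ _ (hadj i) h.1)
  have h1 : (univ.filter fun i => v i ∈ C).card ≤ k := by
    refine le_trans ?_ hC
    refine card_le_card_of_injOn v (fun i hi => ?_) (hinj.injOn)
    exact (mem_filter.1 hi).2
  have h2 : (univ.filter fun i => v (finRotate (2 * k + 1) i) ∈ C).card =
      (univ.filter fun i => v i ∈ C).card := by
    apply card_bij (fun i _ => finRotate (2 * k + 1) i)
    · intro i hi
      rw [mem_filter] at hi ⊢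
      exact ⟨mem_univ _, hi.2⟩
    · intro i _ j _ h
      exact (finRotate (2 * k + 1)).injective h
    · intro j hj
      rw [mem_filter] at hj
      refine ⟨(finRotate (2 * k + 1)).symm j, ?_, Equiv.apply_symm_apply _ _⟩
      rw [mem_filter, Equiv.apply_symm_apply]
      exact ⟨mem_univ _, hj.2⟩
  have h3 : (univ : Finset (Fin (2 * k + 1))) ⊆
      (univ.filter fun i => v i ∈ C) ∪ (univ.filter fun i => v (finRotate (2 * k + 1) i) ∈ C) := by
    intro i _
    rw [mem_union, mem_filter, mem_filter]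
    rcases hcov i with h | h
    · exact Or.inl ⟨mem_univ _, h⟩
    · exact Or.inr ⟨mem_univ _, h⟩
  have h4 := (card_le_card h3).trans (card_union_le _ _)
  rw [card_univ, Fintype.card_fin, h2] at h4
  omega

theorem rot_val {n : ℕ} (i : Fin (n + 1)) :
    (finRotate (n + 1) i).val = if i.val = n then 0 else i.val + 1 := by
  by_cases h : i.val = n
  · have : i = Fin.last n := Fin.ext h
    rw [if_pos h, this, finRotate_last]
    rfl
  · rw [if_neg h]
    have hlt : i.val < n := by omega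
    have := finRotate_of_lt hlt
    have e : i = ⟨i.val, hlt.trans_le n.le_succ⟩ := rfl
    rw [e, this]

/-- `C_{2k+1}^△` contains the cycle of length `2k+1` -/
theorem noCover_odd (k : ℕ) (hk : 1 ≤ k) : NoCover (cycleTriangle (2 * k + 1)) k := by
  obtain ⟨j, rfl⟩ : ∃ j, k = j + 1 := ⟨k - 1, by omega⟩
  refine noCover_of_cycle (fun i => Sum.inl i) Sum.inl_injective fun i => ?_
  change (SimpleGraph.cycleGraph (2 * (j + 1) + 1)).Adj i _
  have h : (SimpleGraph.cycleGraph ((2 * j + 1) + 2)).Adj i (finRotate (2 * (j + 1) + 1) i) := by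
    rw [SimpleGraph.cycleGraph_adj]
    right
    rw [sub_eq_iff_eq_add']
    exact finRotate_apply i
  exact h

/-- `C_{2k}^△` contains the cycle of length `2k+1` -/
theorem noCover_even (k : ℕ) (hk : 2 ≤ k) : NoCover (cycleTriangle (2 * k)) k := by
  let v : Fin (2 * k + 1) → Fin (2 * k) ⊕ Fin 1 := fun i =>
    if h : i.val < 2 * k then Sum.inl ⟨i.val, h⟩ else Sum.inr 0
  refine noCover_of_cycle v ?_ fun i => ?_
  · intro i j hij
    simp only [v] at hij
    split_ifs at hij with h1 h2 h2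
    · exact Fin.ext (by simpa using Sum.inl.inj hij)
    · exact Fin.ext (by omega)
  · have hr := rot_val (n := 2 * k) i
    by_cases h1 : i.val = 2 * k
    · rw [if_pos h1] at hr
      have e1 : v i = Sum.inr 0 := dif_neg (by omega)
      have e2 : v (finRotate (2 * k + 1) i) = Sum.inl ⟨0, by omega⟩ := by
        simp only [v]
        rw [dif_pos (by omega)]
        simp only [hr]
      rw [e1, e2]
      exact Or.inl rfl
    · rw [if_neg h1] at hr
      have hi : i.val < 2 * k := by omega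
      have e1 : v i = Sum.inl ⟨i.val, hi⟩ := dif_pos hi
      by_cases h2 : i.val + 1 = 2 * k
      · have e2 : v (finRotate (2 * k + 1) i) = Sum.inr 0 := dif_neg (by omega)
        rw [e1, e2]
        exact Or.inr h2
      · have e2 : v (finRotate (2 * k + 1) i) = Sum.inl ⟨i.val + 1, by omega⟩ := by
          simp only [v]
          rw [dif_pos (by omega)]
          simp only [hr]
        rw [e1, e2]
        obtain ⟨j, rfl⟩ : ∃ j, k = j + 1 := ⟨k - 1, by omega⟩
        change (SimpleGraph.cycleGraph (2 * j + 2)).Adj _ _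
        rw [SimpleGraph.cycleGraph_adj]
        right
        rw [sub_eq_iff_eq_add']
        apply Fin.ext
        rw [Fin.val_add, Fin.val_one]
        rw [Nat.mod_eq_of_lt]
        · change i.val + 1 < 2 * j + 2
          omega

/-- a graph with a vertex cover of size `k` is `H`-free -/
theorem free_of_cover {W E : Type} [Fintype W] {H : SimpleGraph W} {k : ℕ} (hH : NoCover H k)
    {G : SimpleGraph E} (K : Finset E) (hK : K.card ≤ k)
    (hcov : ∀ a b, G.Adj a b → a ∈ K ∨ b ∈ K) : ¬ H.IsContained G := by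
  classical
  rintro ⟨f⟩
  obtain ⟨a, b, hab, ha, hb⟩ := hH (univ.filter fun w => f w ∈ K) (by
    refine le_trans (card_le_card_of_injOn f (fun i hi => ?_) f.injective.injOn) hK
    exact (mem_filter.1 hi).2)
  rw [mem_filter] at ha hb
  rcases hcov _ _ (f.toHom.map_adj hab) with h | h
  · exact ha ⟨mem_univ _, h⟩
  · exact hb ⟨mem_univ _, h⟩

theorem split_free {W : Type} [Fintype W] {H : SimpleGraph W} {k : ℕ} (hH : NoCover H k)
    (t : ℕ) : ¬ H.IsContained (splitGraph k t) := by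
  classical
  refine free_of_cover hH (univ.map Function.Embedding.inl) (by simp) ?_
  rintro (a | a) (b | b) h
  · exact Or.inl (by simp)
  · exact Or.inl (by simp)
  · exact Or.inr (by simp)
  · exact (h : False).elim

theorem S1_free {W : Type} [Fintype W] {H : SimpleGraph W} {k : ℕ} (hH : NoCover H k)
    (n l : ℕ) (hl : l ≤ k) : ¬ H.IsContained (S1 n k l) := by
  classical
  refine free_of_cover hH (univ.image (Sum.elim (fun a : Fin l => Sum.inl a)
    (fun a : Fin (k - l) => Sum.inr (Sum.inl (Sum.inl a))))) ?_ ?_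
  · refine card_image_le.trans ?_
    rw [card_univ, Fintype.card_sum, Fintype.card_fin, Fintype.card_fin]
    omega
  · have m1 : ∀ a : Fin l, (Sum.inl a : Fin l ⊕ ((Fin (k - l) ⊕ Fin (n - k - 1)) ⊕ Fin 1)) ∈
        (univ.image (Sum.elim (fun a : Fin l => Sum.inl a)
          (fun a : Fin (k - l) => Sum.inr (Sum.inl (Sum.inl a)))) :
          Finset (Fin l ⊕ ((Fin (k - l) ⊕ Fin (n - k - 1)) ⊕ Fin 1))) := fun a =>
      mem_image.2 ⟨Sum.inl a, mem_univ _, rfl⟩
    have m2 : ∀ a : Fin (k - l), (Sum.inr (Sum.inl (Sum.inl a)) :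
        Fin l ⊕ ((Fin (k - l) ⊕ Fin (n - k - 1)) ⊕ Fin 1)) ∈
        (univ.image (Sum.elim (fun a : Fin l => Sum.inl a)
          (fun a : Fin (k - l) => Sum.inr (Sum.inl (Sum.inl a)))) :
          Finset (Fin l ⊕ ((Fin (k - l) ⊕ Fin (n - k - 1)) ⊕ Fin 1))) := fun a =>
      mem_image.2 ⟨Sum.inr a, mem_univ _, rfl⟩
    rintro (a | (a | a) | a) (b | (b | b) | b) h
    all_goals first
      | exact Or.inl (m1 _)
      | exact Or.inr (m1 _)
      | exact Or.inl (m2 _)
      | exact Or.inr (m2 _)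
      | exact absurd h (by simp [S1, join, SimpleGraph.sum])

theorem split_conn (k t : ℕ) (hk : 2 ≤ k) : ∀ v, ∃ w, (splitGraph k t).Adj v w := by
  rintro (a | a)
  · by_cases h : a.val = 0
    · refine ⟨Sum.inl ⟨1, by omega⟩, ?_⟩
      show (⊤ : SimpleGraph (Fin k)).Adj _ _
      rw [SimpleGraph.top_adj]
      intro h'
      rw [h'] at h
      exact absurd h (by simp)
    · refine ⟨Sum.inl ⟨0, by omega⟩, ?_⟩
      show (⊤ : SimpleGraph (Fin k)).Adj _ _
      rw [SimpleGraph.top_adj]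
      intro h'
      rw [h'] at h
      exact h rfl
  · exact ⟨Sum.inl ⟨0, by omega⟩, trivial⟩

theorem S1_conn (n k l : ℕ) (hl : 1 ≤ l) : ∀ v, ∃ w, (S1 n k l).Adj v w := by
  rintro (a | a)
  · exact ⟨Sum.inr (Sum.inr 0), trivial⟩
  · exact ⟨Sum.inl ⟨0, by omega⟩, trivial⟩

open Classical in
theorem S1_edges (n k l : ℕ) (hl : l ≤ k) :
    (S1 n k l).edgeSet.ncard = k.choose 2 + k * (n - k - 1) + l := by
  have hd : (S1 n k l).edgeSet.ncard = (S1 n k l).edgeFinset.card := by
    rw [Set.ncard_eq_toFinset_card']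
    rfl
  rw [hd]
  have h := (S1 n k l).sum_degrees_eq_twice_card_edges
  set t : ℕ := n - k - 1 with ht
  have hkl : ((k - l : ℕ) : ℝ) = k - l := by rw [Nat.cast_sub hl]
  have hdeg : ∀ v, ((S1 n k l).degree v : ℝ) = ∑ u, (if (S1 n k l).Adj v u then (1 : ℝ) else 0) := by
    intro v
    rw [← nbr_sum (S1 n k l) v (fun _ => 1), sum_const,
      SimpleGraph.card_neighborFinset_eq_degree, nsmul_eq_mul, mul_one]
  have LL : ∀ a b, (if (S1 n k l).Adj (Sum.inl a) (Sum.inl b) then (1 : ℝ) else 0) =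
      if (⊤ : SimpleGraph (Fin l)).Adj a b then 1 else 0 := fun a b => if_congr Iff.rfl rfl rfl
  have LR : ∀ a b, (if (S1 n k l).Adj (Sum.inl a) (Sum.inr b) then (1 : ℝ) else 0) = 1 :=
    fun a b => if_pos trivial
  have RL : ∀ a b, (if (S1 n k l).Adj (Sum.inr a) (Sum.inl b) then (1 : ℝ) else 0) = 1 :=
    fun a b => if_pos trivial
  have MM : ∀ a b, (if (S1 n k l).Adj (Sum.inr (Sum.inl (Sum.inl a)))
      (Sum.inr (Sum.inl (Sum.inl b))) then (1 : ℝ) else 0) =
      if (⊤ : SimpleGraph (Fin (k - l))).Adj a b then 1 else 0 :=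
    fun a b => if_congr Iff.rfl rfl rfl
  have MT : ∀ a b, (if (S1 n k l).Adj (Sum.inr (Sum.inl (Sum.inl a)))
      (Sum.inr (Sum.inl (Sum.inr b))) then (1 : ℝ) else 0) = 1 := fun a b => if_pos trivial
  have TM : ∀ a b, (if (S1 n k l).Adj (Sum.inr (Sum.inl (Sum.inr a)))
      (Sum.inr (Sum.inl (Sum.inl b))) then (1 : ℝ) else 0) = 1 := fun a b => if_pos trivial
  have TT : ∀ a b, (if (S1 n k l).Adj (Sum.inr (Sum.inl (Sum.inr a)))
      (Sum.inr (Sum.inl (Sum.inr b))) then (1 : ℝ) else 0) = 0 :=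
    fun a b => if_neg (by simp [S1, join, SimpleGraph.sum])
  have XU : ∀ a b, (if (S1 n k l).Adj (Sum.inr (Sum.inl a))
      (Sum.inr (Sum.inr b)) then (1 : ℝ) else 0) = 0 :=
    fun a b => if_neg (by cases a <;> simp [S1, join, SimpleGraph.sum])
  have UX : ∀ a b, (if (S1 n k l).Adj (Sum.inr (Sum.inr a))
      (Sum.inr (Sum.inl b)) then (1 : ℝ) else 0) = 0 :=
    fun a b => if_neg (by cases b <;> simp [S1, join, SimpleGraph.sum])
  have UU : ∀ a b, (if (S1 n k l).Adj (Sum.inr (Sum.inr a))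
      (Sum.inr (Sum.inr b)) then (1 : ℝ) else 0) = 0 :=
    fun a b => if_neg (by simp [S1, join, SimpleGraph.sum])
  have h' : ∑ v, ((S1 n k l).degree v : ℝ) = 2 * ((S1 n k l).edgeFinset.card : ℝ) := by
    exact_mod_cast h
  rw [Finset.sum_congr rfl (fun v _ => hdeg v)] at h'
  simp only [Fintype.sum_sum_type, LL, LR, RL, MM, MT, TM, TT, XU, UX, UU] at h'
  have t1 : ∀ a : Fin l, (∑ b : Fin l, (if (⊤ : SimpleGraph (Fin l)).Adj a b then (1 : ℝ) else 0)) =
      ((l : ℝ) - 1) * 1 := by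
    intro a
    rw [← top_sum l a 1]
  have t2 : ∀ a : Fin (k - l), (∑ b : Fin (k - l),
      (if (⊤ : SimpleGraph (Fin (k - l))).Adj a b then (1 : ℝ) else 0)) =
      (((k - l : ℕ) : ℝ) - 1) * 1 := by
    intro a
    rw [← top_sum (k - l) a 1]
  simp only [t1, t2] at h'
  simp only [Finset.sum_const, Finset.card_univ, Fintype.card_fin, nsmul_eq_mul, hkl] at h'
  push_cast at h'
  have hch : (k.choose 2 : ℝ) = k * (k - 1) / 2 := Nat.cast_choose_two ℝ k
  have : ((S1 n k l).edgeFinset.card : ℝ) = (k.choose 2 + k * t + l : ℕ) := by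
    push_cast
    rw [hch]
    have e : ((n - k - 1 : ℕ) : ℝ) = t := rfl
    rw [e] at h'
    linarith
  exact_mod_cast this

/-- the bound of Q1 for fan-free graphs -/
theorem fanfree (k : ℕ) (hk : 2 ≤ k) (m : ℕ)
    (hm : (10 ^ 60 * k ^ 60 * 2 ^ (4 * k)) ^ 2 + k ^ 2 + k ≤ m)
    (V : Type) [Fintype V] (G : SimpleGraph V) (hG : G.edgeSet.ncard = m)
    (hiso : ∀ v, ∃ w, G.Adj v w) (hfan : ¬ (fan (2 * k + 1)).IsContained G) :
    specRad G ≤ ((k : ℝ) - 1 + √(4 * m - k ^ 2 + 1)) / 2 ∧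
      (specRad G = ((k : ℝ) - 1 + √(4 * m - k ^ 2 + 1)) / 2 ↔
        ∃ s : ℕ, m = k.choose 2 + k * s ∧ Nonempty (G ≃g splitGraph k s)) := by
  classical
  have hmk : k ^ 2 + k ≤ m :=
    le_trans (Nat.add_le_add_right (Nat.le_add_left (k ^ 2) _) k) hm
  have hneV : Nonempty V := by
    by_contra hcon
    rw [not_nonempty_iff] at hcon
    have h1 : G.edgeSet = ∅ := by
      rw [Set.eq_empty_iff_forall_notMem]
      intro e
      induction e with
      | _ a b => exact (IsEmpty.false a).elim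
    rw [h1, Set.ncard_empty] at hG
    have h2 : 0 < k ^ 2 := by positivity
    omega
  have key : ((k : ℝ) - 1 + √(4 * m - k ^ 2 + 1)) / 2 ≤ specRad G →
      ∃ s : ℕ, m = k.choose 2 + k * s ∧ Nonempty (G ≃g splitGraph k s) := by
    intro h
    have hmkR : (k : ℝ) ^ 2 + k ≤ m := by exact_mod_cast hmk
    have hs0 : 0 ≤ √(4 * m - k ^ 2 + 1 : ℝ) := Real.sqrt_nonneg _
    have hs2 : √(4 * m - k ^ 2 + 1 : ℝ) ^ 2 = 4 * m - k ^ 2 + 1 := by
      apply Real.sq_sqrt
      have : (0 : ℝ) ≤ m := Nat.cast_nonneg _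
      have : (0 : ℝ) ≤ k := Nat.cast_nonneg _
      linarith
    have h3 : √(4 * m - k ^ 2 + 1 : ℝ) ≤ 2 * specRad G - (k - 1) := by linarith
    have h4 := pow_le_pow_left₀ hs0 h3 2
    rw [hs2] at h4
    have h5 : (m : ℝ) - k * (k - 1) / 2 - ((0 : ℕ) : ℝ) / k ≤
        specRad G ^ 2 - (k - 1) * specRad G := by
      rw [Nat.cast_zero, zero_div]
      linarith [h4]
    obtain ⟨L, hL, hcl, hd⟩ :=
      ((Pool.Agent.Results.MP_0daf67_co.DefectStability.result k hk m hm V _ G hG hiso
        hfan).1 0 (by omega)).1 h5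
    obtain ⟨s, ⟨e⟩⟩ := iso_of_zero G k hk hiso L hL hcl (by simpa using hd)
    refine ⟨s, ?_, ⟨e⟩⟩
    rw [← splitGraph_edges k s, ← hG]
    exact Set.ncard_congr' e.mapEdgeSet
  have hval : ∀ s : ℕ, m = k.choose 2 + k * s → Nonempty (G ≃g splitGraph k s) →
      specRad G = ((k : ℝ) - 1 + √(4 * m - k ^ 2 + 1)) / 2 := by
    rintro s hs ⟨e⟩
    have : Nonempty (Fin k ⊕ Fin s) := ⟨Sum.inl ⟨0, by omega⟩⟩
    rw [specRad_iso G _ e, splitGraph_specRad k s hk m hs]
  refine ⟨?_, ?_, ?_⟩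
  · by_contra hcon
    push Not at hcon
    obtain ⟨s, hs, he⟩ := key hcon.le
    exact hcon.ne' (hval s hs he)
  · intro h
    exact key h.ge
  · rintro ⟨s, hs, he⟩
    exact hval s hs he

theorem two_choose (k : ℕ) : 2 * k.choose 2 = k * (k - 1) := by
  rw [Nat.choose_two_right]
  exact Nat.mul_div_cancel' (Nat.even_mul_pred_self k).two_dvd

/-- the parameters of the library theorem in the non-divisible case -/
theorem params (k t l m : ℕ) (hk : 2 ≤ k) (hm : m = k.choose 2 + k * t + l) :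
    m + k * (k + 1) / 2 ≡ l [MOD k] ∧
      ((t + k + 1 : ℕ) : ℚ) = ((m : ℚ) - l) / k + (k + 3) / 2 := by
  have h2 := two_choose k
  constructor
  · obtain ⟨j, rfl⟩ : ∃ j, k = j + 1 := ⟨k - 1, by omega⟩
    have h3 : (j + 1) * (j + 1 + 1) / 2 = (j + 1).choose 2 + (j + 1) := by
      have h4 : 2 * (j + 1).choose 2 = (j + 1) * j := by simpa using h2
      have h5 : (j + 1) * (j + 1 + 1) = 2 * ((j + 1).choose 2 + (j + 1)) := by
        rw [mul_add 2, h4]
        ring
      rw [h5, Nat.mul_div_cancel_left _ (by norm_num)]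
    have h6 : m + (j + 1) * (j + 1 + 1) / 2 = (j + 1) * (j + 1 + t) + l := by
      have h4 : 2 * (j + 1).choose 2 = (j + 1) * j := by simpa using h2
      have h7 : (j + 1) * (j + 1 + t) = (j + 1) * j + (j + 1) + (j + 1) * t := by ring
      rw [h3, hm]
      omega
    rw [h6]
    exact (Nat.modEq_iff_dvd' (Nat.le_add_left _ _)).2
      ⟨j + 1 + t, by omega⟩ |>.symm
  · have hkQ : (k : ℚ) ≠ 0 := by
      have : k ≠ 0 := by omega
      exact_mod_cast this
    have hch : (k.choose 2 : ℚ) = k * (k - 1) / 2 := Nat.cast_choose_two ℚ k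
    rw [hm]
    push_cast
    rw [hch]
    field_simp
    ring

end Pool.Agent.KS6_65.CTR
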